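import Pool.Agent.U237.NF.Lite

/-!
# Project NF, package FA: compact null sets are thin at all scales; change of notation
-/

set_option autoImplicit false

namespace Pool.Agent.U951.NF

open Finset Filter Topology MeasureTheory
open Pool.Agent.H807R2.Dav (ee)
open Pool.Agent.W24.Katai (Mul1)
open Pool.Agent.U237.NF.Lite

/-- the finite sets of points of `K` with distances larger than `1 / x` are small -/
lemma sep_card {K U : Set UnitAddCircle} {ρ d x : ℝ} (hρ : 0 < ρ) (hU : Metric.thickening ρ K ⊆ U)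
    (hd : 0 ≤ d) (hUd : volume U ≤ ENNReal.ofReal d) (hx1 : 1 ≤ x) (hx : 1 / ρ < x) (F : Finset UnitAddCircle)
    (hF : (F : Set UnitAddCircle) ⊆ K) (hsep : ∀ y ∈ F, ∀ z ∈ F, y ≠ z → 1 / x < dist y z) : (F.card : ℝ) ≤ d * x := by
  have hx0 : 0 < x := by linarith
  have hdisj : (F : Set UnitAddCircle).PairwiseDisjoint (fun y => Metric.closedBall y (1 / (2 * x))) := by
    intro y hy z hz hyz
    rw [Function.onFun, Set.disjoint_left]
    intro w hw1 hw2
    have h1 := hsep y hy z hz hyz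
    rw [Metric.mem_closedBall] at hw1 hw2
    have h2 : dist y z ≤ dist w y + dist w z := dist_triangle_left y z w
    have h3 : 1 / (2 * x) + 1 / (2 * x) = 1 / x := by
      field_simp
      norm_num
    linarith
  have h1 : volume (⋃ y ∈ F, Metric.closedBall y (1 / (2 * x))) = ∑ y ∈ F, volume (Metric.closedBall y (1 / (2 * x))) :=
    measure_biUnion_finset hdisj (fun y _ => Metric.isClosed_closedBall.measurableSet)
  have h2 : ∀ y : UnitAddCircle, volume (Metric.closedBall y (1 / (2 * x))) = ENNReal.ofReal (1 / x) := by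
    intro y
    rw [AddCircle.volume_closedBall]
    congr 1
    have : 2 * (1 / (2 * x)) = 1 / x := by
      field_simp
    rw [this]
    apply min_eq_right
    rw [div_le_one hx0]
    exact hx1
  have h3 : (⋃ y ∈ F, Metric.closedBall y (1 / (2 * x))) ⊆ U := by
    refine subset_trans ?_ hU
    intro w hw
    simp only [Set.mem_iUnion, exists_prop] at hw
    obtain ⟨y, hy, hw⟩ := hw
    rw [Metric.mem_thickening_iff]
    refine ⟨y, hF hy, lt_of_le_of_lt (Metric.mem_closedBall.1 hw) ?_⟩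
    rw [div_lt_iff₀ hρ] at hx
    rw [div_lt_iff₀ (by positivity)]
    nlinarith
  have h4 := (measure_mono (μ := volume) h3).trans hUd
  rw [h1, Finset.sum_congr rfl (fun y _ => h2 y), Finset.sum_const, nsmul_eq_mul] at h4
  have h5 : (F.card : ENNReal) * ENNReal.ofReal (1 / x) = ENNReal.ofReal ((F.card : ℝ) * (1 / x)) := by
    rw [ENNReal.ofReal_mul (Nat.cast_nonneg _), ENNReal.ofReal_natCast]
  rw [h5, ENNReal.ofReal_le_ofReal_iff hd] at h4
  rw [mul_one_div, div_le_iff₀ hx0] at h4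
  exact h4

/-- a cover with few arcs at small scales -/
lemma cover {K : Set UnitAddCircle} (hK : IsCompact K) (h0 : volume K = 0) {d : ℝ} (hd : 0 < d) :
    ∃ x₀ : ℝ, ∀ x : ℝ, x₀ ≤ x → 1 ≤ x → CovR K x (d * x) := by
  classical
  obtain ⟨U, hKU, hUo, hUd⟩ := K.exists_isOpen_lt_of_lt (μ := volume) (ENNReal.ofReal d)
    (by rw [h0]; exact ENNReal.ofReal_pos.2 hd)
  obtain ⟨ρ, hρ, hU⟩ := hK.exists_thickening_subset_open hUo hKU
  refine ⟨1 / ρ + 1, fun x hx hx1 => ?_⟩
  have hx2 : 1 / ρ < x := by linarith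
  have hb : ∀ F : Finset UnitAddCircle, (F : Set UnitAddCircle) ⊆ K →
      (∀ y ∈ F, ∀ z ∈ F, y ≠ z → 1 / x < dist y z) → (F.card : ℝ) ≤ d * x := fun F hF hs =>
    sep_card hρ hU hd.le hUd.le hx1 hx2 F hF hs
  -- a maximal one
  set P : ℕ → Prop := fun m => ∃ F : Finset UnitAddCircle, (F : Set UnitAddCircle) ⊆ K ∧
      (∀ y ∈ F, ∀ z ∈ F, y ≠ z → 1 / x < dist y z) ∧ F.card = m with hP
  have hP0 : P 0 := ⟨∅, by simp, by simp, rfl⟩
  have hPb : ∀ m, P m → m ≤ ⌊d * x⌋₊ := by
    rintro m ⟨F, h1, h2, rfl⟩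
    exact Nat.le_floor (hb F h1 h2)
  obtain ⟨F, h1, h2, h3⟩ := Nat.findGreatest_spec (P := P) (n := ⌊d * x⌋₊) (Nat.zero_le _) hP0
  refine ⟨F, hb F h1 h2, fun z hz => ?_⟩
  by_contra hcon
  push Not at hcon
  have hzF : z ∉ F := by
    intro h
    have := hcon z h
    rw [sub_self, norm_zero] at this
    have : 0 < 1 / x := by positivity
    linarith
  have hP1 : P (Nat.findGreatest P ⌊d * x⌋₊ + 1) := by
    refine ⟨insert z F, ?_, ?_, ?_⟩
    · intro w hw
      rw [Finset.coe_insert, Set.mem_insert_iff] at hw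
      rcases hw with rfl | hw
      · exact hz
      · exact h1 hw
    · intro y hy w hw hyw
      rw [Finset.mem_insert] at hy hw
      rcases hy with rfl | hy
      · rcases hw with rfl | hw
        · exact absurd rfl hyw
        · rw [dist_eq_norm]
          exact hcon w hw
      · rcases hw with rfl | hw
        · rw [dist_comm, dist_eq_norm]
          exact hcon y hy
        · exact h2 y hy w hw hyw
    · rw [Finset.card_insert_of_notMem hzF, h3]
  have h4 := Nat.le_findGreatest (hPb _ hP1) hP1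
  omega

theorem t_THN : S_THN := by
  classical
  intro K hK h0
  -- the least number of arcs
  set S : ℝ → Set ℕ := fun x => {m : ℕ | CovR K x m} with hS
  have hne : ∀ x : ℝ, 1 ≤ x → (S x).Nonempty := by
    intro x hx
    have hx0 : 0 < 1 / x := by positivity
    obtain ⟨t, ht, hcov⟩ := (Metric.totallyBounded_iff.1 hK.totallyBounded) (1 / x) hx0
    refine ⟨ht.toFinset.card, ht.toFinset, le_rfl, fun z hz => ?_⟩
    have := hcov hz
    simp only [Set.mem_iUnion, exists_prop] at this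
    obtain ⟨y, hy, hzy⟩ := this
    exact ⟨y, ht.mem_toFinset.2 hy, by rw [← dist_eq_norm]; exact (Metric.mem_ball.1 hzy).le⟩
  refine ⟨fun x => (sInf (S x) : ℕ) / x, ?_, fun x hx => ?_⟩
  · rw [Metric.tendsto_atTop]
    intro ε hε
    obtain ⟨x₀, hx₀⟩ := cover hK h0 (half_pos hε)
    refine ⟨max x₀ 1, fun x hx => ?_⟩
    have hx1 : 1 ≤ x := (le_max_right _ _).trans hx
    have hxx : x₀ ≤ x := (le_max_left _ _).trans hx
    have hxp : 0 < x := by linarith
    obtain ⟨F, hF1, hF2⟩ := hx₀ x hxx hx1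
    have h1 : sInf (S x) ≤ F.card := Nat.sInf_le ⟨F, le_rfl, hF2⟩
    have h2 : ((sInf (S x) : ℕ) : ℝ) ≤ ε / 2 * x := (Nat.cast_le.2 h1).trans hF1
    rw [Real.dist_eq, sub_zero, abs_of_nonneg (by positivity)]
    calc ((sInf (S x) : ℕ) : ℝ) / x ≤ ε / 2 := by rw [div_le_iff₀ hxp]; exact h2
      _ < ε := by linarith
  · have h := Nat.sInf_mem (hne x hx)
    have e : ((sInf (S x) : ℕ) : ℝ) / x * x = ((sInf (S x) : ℕ) : ℝ) := div_mul_cancel₀ _ (by linarith)
    show CovR K x (((sInf (S x) : ℕ) : ℝ) / x * x)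
    rw [e]
    exact h

/-- the character in terms of a real representative -/
lemma fourier_ee (r : ℝ) (i : ℕ) : (fourier (i : ℤ) ((r : ℝ) : UnitAddCircle) : ℂ) = ee ((i : ℝ) * r) := by
  rw [fourier_coe_apply]
  unfold ee
  congr 1
  push_cast
  ring

theorem t_FA : P_FA := by
  intro hF hT h hm hs K hK h0 ε hε
  obtain ⟨η, hη, hthin⟩ := hT K hK h0
  obtain ⟨H0, hH0⟩ := hF h hm hs η hη ε hε
  refine ⟨H0, fun H hH => ?_⟩
  obtain ⟨N0, hN0⟩ := hH0 H hH
  refine ⟨N0, fun N hN a ha => ?_⟩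
  have hr : ∀ n, ∃ r : ℝ, ((r : ℝ) : UnitAddCircle) = a n := fun n => by
    obtain ⟨r, hr⟩ := QuotientAddGroup.mk_surjective (a n)
    exact ⟨r, hr⟩
  choose r hr using hr
  have h1 := hN0 N hN K hthin r (fun n => by rw [hr]; exact ha n)
  refine le_trans (le_of_eq ?_) h1
  refine sum_congr rfl fun n _ => ?_
  congr 1
  refine sum_congr rfl fun i _ => ?_
  rw [← hr n, fourier_ee]

end Pool.Agent.U951.NF
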